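import Pool.Agent.H786R2.HWMain

set_option autoImplicit false

namespace Pool.Agent.Results.MP_945c9c_an.AdmissibleWeights

open Pool.Agent.H786R2.HW

/-- Let `1 < p < ∞`. If the Hilbert transform satisfies the weighted inequality
`∫ |Hf|^p U ≤ C ∫ |f|^p U` for all (real-valued) `f ∈ L¹(ℝ)` with `∫ f = 0`, then one of the weights
`U`, `|x - a|^{-p} U` (for some real `a`), `(1 + |x|)^{-p} U` belongs to Muckenhoupt's class
`A_p`. -/
theorem result : ∀ p : ℝ, 1 < p → ∀ U : ℝ → ℝ, IsWeight U → Admissible p U →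
    IsAp p U ∨ (∃ a : ℝ, IsAp p (fun x => |x - a| ^ (-p) * U x)) ∨
      IsAp p (fun x => (1 + |x|) ^ (-p) * U x) :=
  fun _ hp _ hw hadm => main hp hw hadm

end Pool.Agent.Results.MP_945c9c_an.AdmissibleWeights
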